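import Mathlib
import Pool.Agent.TH881.RK.Defs
import Pool.Agent.TH416.J3004

/-!
# RK-L: unions of classes (job 3811, helper663 for helper881)
-/

set_option autoImplicit false

namespace Pool.Agent.TH663.J3811

open Finset Filter Topology
open Pool.Agent.TH881
open Pool.Agent.TH881.RG
open Pool.Agent.TH881.RQ
open Pool.Agent.TH881.RK
open Pool.Agent.H373R2.T7

/-- the class of a vector -/
def cl {m : ℕ} (W : ℕ) (h : Fin m → ℕ) : Fin m → ZMod W := fun j => (h j : ZMod W)

/-! ### counting in classes -/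

open Classical in
lemma cls_upper (W : ℕ) (hW : 0 < W) (x : ℕ) (t : ZMod W) :
    (((Icc 1 x).filter (fun n : ℕ => (n : ZMod W) = t)).card : ℝ) ≤ (x : ℝ) / W + 1 := by
  have h := (abs_le.1 (cnt_per W hW {t} x)).2
  rw [card_singleton] at h
  have h2 : (cnt (per W {t}) x : ℝ) = (((Icc 1 x).filter (fun n : ℕ => (n : ZMod W) = t)).card : ℝ) := by
    congr 1
    unfold cnt
    congr 1
    ext n
    rw [mem_filter, mem_filter]
    constructor
    · rintro ⟨h1, h2, h3⟩
      exact ⟨h1, mem_singleton.1 h3⟩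
    · rintro ⟨h1, h3⟩
      exact ⟨h1, (mem_Icc.1 h1).1, mem_singleton.2 h3⟩
  rw [h2] at h
  have e : ((1 : ℕ) : ℝ) / W * x = (x : ℝ) / W := by push_cast; ring
  rw [e] at h
  push_cast at h
  linarith

open Classical in
lemma cls_lower (W : ℕ) (hW : 0 < W) (w x : ℕ) (t : ZMod W) :
    (x : ℝ) / W - 1 - w ≤ (((Icc (w + 1) x).filter (fun n : ℕ => (n : ZMod W) = t)).card : ℝ) := by
  have h := (abs_le.1 (cnt_per W hW {t} x)).1
  rw [card_singleton] at h
  have h2 : (cnt (per W {t}) x : ℝ) = (((Icc 1 x).filter (fun n : ℕ => (n : ZMod W) = t)).card : ℝ) := by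
    congr 1
    unfold cnt
    congr 1
    ext n
    rw [mem_filter, mem_filter]
    constructor
    · rintro ⟨h1, h2, h3⟩
      exact ⟨h1, mem_singleton.1 h3⟩
    · rintro ⟨h1, h3⟩
      exact ⟨h1, (mem_Icc.1 h1).1, mem_singleton.2 h3⟩
  rw [h2] at h
  have e : ((1 : ℕ) : ℝ) / W * x = (x : ℝ) / W := by push_cast; ring
  rw [e] at h
  push_cast at h
  have h3 : ((Icc 1 x).filter (fun n : ℕ => (n : ZMod W) = t)).card ≤
      ((Icc (w + 1) x).filter (fun n : ℕ => (n : ZMod W) = t)).card + w := by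
    have hs : (Icc 1 x).filter (fun n : ℕ => (n : ZMod W) = t) ⊆
        (Icc (w + 1) x).filter (fun n : ℕ => (n : ZMod W) = t) ∪ Icc 1 w := by
      intro n hn
      rw [mem_filter, mem_Icc] at hn
      rw [mem_union, mem_filter, mem_Icc, mem_Icc]
      by_cases h : n ≤ w
      · right; omega
      · left; exact ⟨⟨by omega, hn.1.2⟩, hn.2⟩
    have := (card_le_card hs).trans (card_union_le _ _)
    rw [Nat.card_Icc, Nat.add_sub_cancel] at this
    exact this
  have h4 : (((Icc 1 x).filter (fun n : ℕ => (n : ZMod W) = t)).card : ℝ) ≤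
      (((Icc (w + 1) x).filter (fun n : ℕ => (n : ZMod W) = t)).card : ℝ) + w := by exact_mod_cast h3
  linarith

open Classical in
/-- the vectors with entries in `[a, x]` and class in `T` -/
noncomputable def VV {m : ℕ} (W a x : ℕ) (T : Finset (Fin m → ZMod W)) : Finset (Fin m → ℕ) :=
  (Fintype.piFinset (fun _ : Fin m => Icc a x)).filter (fun h => cl W h ∈ T)

open Classical in
lemma VV_card {m : ℕ} (W a x : ℕ) (T : Finset (Fin m → ZMod W)) :
    (VV W a x T).card = ∑ t ∈ T, ∏ j, ((Icc a x).filter (fun n : ℕ => (n : ZMod W) = t j)).card := by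
  rw [card_eq_sum_card_fiberwise (s := VV W a x T) (t := T) (f := fun h => cl W h)]
  · apply sum_congr rfl
    intro t ht
    rw [← Fintype.card_piFinset]
    congr 1
    ext h
    unfold VV
    rw [mem_filter, mem_filter, Fintype.mem_piFinset, Fintype.mem_piFinset]
    constructor
    · rintro ⟨⟨h1, h2⟩, h3⟩ j
      rw [mem_filter]
      exact ⟨h1 j, congrFun h3 j⟩
    · intro h1
      have h3 : cl W h = t := by
        funext j
        exact (mem_filter.1 (h1 j)).2
      refine ⟨⟨fun j => (mem_filter.1 (h1 j)).1, ?_⟩, h3⟩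
      rw [h3]
      exact ht
  · intro h hh
    unfold VV at hh
    rw [mem_coe, mem_filter] at hh
    exact hh.2

lemma VV_upper {m : ℕ} (W : ℕ) (hW : 0 < W) (x : ℕ) (T : Finset (Fin m → ZMod W)) :
    ((VV W 1 x T).card : ℝ) ≤ T.card * ((x : ℝ) / W + 1) ^ m := by
  classical
  rw [VV_card]
  push_cast
  rw [← nsmul_eq_mul]
  apply sum_le_card_nsmul
  intro t _
  have h : ∏ j : Fin m, (((Icc 1 x).filter (fun n : ℕ => (n : ZMod W) = t j)).card : ℝ) ≤
      ∏ _j : Fin m, ((x : ℝ) / W + 1) := by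
    apply Finset.prod_le_prod
    · intro j _
      exact Nat.cast_nonneg _
    · intro j _
      exact cls_upper W hW x (t j)
  rw [prod_const, card_univ, Fintype.card_fin] at h
  exact h

lemma VV_lower {m : ℕ} (W : ℕ) (hW : 0 < W) (w x : ℕ) (T : Finset (Fin m → ZMod W))
    (hx : 0 ≤ (x : ℝ) / W - 1 - w) :
    T.card * ((x : ℝ) / W - 1 - w) ^ m ≤ ((VV W (w + 1) x T).card : ℝ) := by
  classical
  rw [VV_card]
  push_cast
  rw [← nsmul_eq_mul]
  apply card_nsmul_le_sum
  intro t _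
  have h : ∏ _j : Fin m, ((x : ℝ) / W - 1 - w) ≤
      ∏ j : Fin m, (((Icc (w + 1) x).filter (fun n : ℕ => (n : ZMod W) = t j)).card : ℝ) := by
    apply Finset.prod_le_prod
    · intro j _
      exact hx
    · intro j _
      exact cls_lower W hW w x (t j)
  rw [prod_const, card_univ, Fintype.card_fin] at h
  exact h

/-! ### the arithmetic -/

/-- a prime larger than `w` is a unit modulo `Wp w` -/
lemma unit_of_prime {w q : ℕ} (hq : q.Prime) (hw : w < q) : IsUnit (q : ZMod (Wp w)) := by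
  rw [ZMod.isUnit_iff_coprime, Nat.Prime.coprime_iff_not_dvd hq, prime_dvd_Wp hq]
  omega

lemma hit_sumk {m : ℕ} (pr : Bool) (w : ℕ) (B : Finset (ZMod (Wp w))) (h : Fin m → ℕ)
    (hh : h ∈ hitk pr m {n : ℕ | (n : ZMod (Wp w)) ∈ B}) (hw : ∀ j, w < h j) :
    cl (Wp w) h ∈ sumk m w B := by
  classical
  obtain ⟨n, hn, -, hp⟩ := hh
  unfold sumk
  rw [mem_filter]
  refine ⟨mem_univ _, (n : ZMod (Wp w)), hn, fun j => ?_⟩
  have h1 := unit_of_prime (w := w) (hp j) (by have := hw j; omega)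
  unfold cl
  push_cast at h1
  rw [add_comm]
  exact h1

lemma not_hit {m : ℕ} (pr : Bool) (w : ℕ) (B : Finset (ZMod (Wp w))) (h : Fin m → ℕ)
    (hh : ∀ a ∈ B, ¬ gk (cl (Wp w) h) a) (hw : ∀ j, w < h j) :
    h ∉ hitk pr m {n : ℕ | (n : ZMod (Wp w)) ∈ B} := by
  classical
  intro hc
  have := hit_sumk pr w B h hc hw
  unfold sumk at this
  rw [mem_filter] at this
  obtain ⟨-, a, ha, hg⟩ := this
  exact hh a ha hg

/-- a prime which divides `Wp w` does not divide a representative of a unit -/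
lemma not_dvd_of_unit {w p n : ℕ} (hp : p.Prime) (hpw : p ≤ w) (h : IsUnit (n : ZMod (Wp w))) :
    ¬ p ∣ n := by
  intro hd
  rw [ZMod.isUnit_iff_coprime] at h
  have h1 : p ∣ Nat.gcd n (Wp w) := Nat.dvd_gcd hd ((prime_dvd_Wp hp).2 hpw)
  rw [h] at h1
  exact hp.one_lt.ne' (Nat.dvd_one.1 h1)

lemma adm_of {m : ℕ} (pr : Bool) (w : ℕ) (hmw : m + 1 ≤ w) (h : Fin m → ℕ)
    (hh : wk pr m w (cl (Wp w) h) ≠ 0) : Admk pr h := by
  classical
  intro p hp
  have hW := Wp_pos w
  have : NeZero (Wp w) := ⟨hW.ne'⟩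
  by_cases hpw : p ≤ w
  · -- a class of arguments
    have h1 : ((AA pr w).filter (fun a => gk (cl (Wp w) h) a)).Nonempty := by
      rw [nonempty_iff_ne_empty]
      intro h0
      apply hh
      unfold wk
      have : ((AA pr w).filter (fun a => gk (cl (Wp w) h) a)).card = 0 := by rw [h0, card_empty]
      have h2 : (((AA pr w).filter (fun a => gk (cl (Wp w) h) a)).card : ℝ) = 0 := by
        rw [this]; norm_num
      rw [div_eq_zero_iff]
      left
      convert h2
    obtain ⟨a, ha⟩ := h1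
    rw [mem_filter] at ha
    obtain ⟨haA, hag⟩ := ha
    refine ⟨a.val, fun hpr => ?_, fun j => ?_⟩
    · unfold AA at haA
      rw [mem_filter] at haA
      have hu := haA.2 hpr
      rw [← ZMod.natCast_zmod_val a] at hu
      exact not_dvd_of_unit hp hpw hu
    · have hu := hag j
      unfold cl at hu
      rw [← ZMod.natCast_zmod_val a, ← Nat.cast_add] at hu
      rw [add_comm]
      exact not_dvd_of_unit hp hpw hu
  · -- a large prime
    have : Fact p.Prime := ⟨hp⟩
    have hcard : (insert (0 : ZMod p) (univ.image (fun j : Fin m => -(h j : ZMod p)))).card <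
        (univ : Finset (ZMod p)).card := by
      have h1 := card_insert_le (0 : ZMod p) (univ.image (fun j : Fin m => -(h j : ZMod p)))
      have h2 : (univ.image (fun j : Fin m => -(h j : ZMod p))).card ≤ m := by
        refine card_image_le.trans ?_
        rw [card_univ, Fintype.card_fin]
      rw [card_univ, ZMod.card]
      omega
    obtain ⟨a, -, ha⟩ := exists_mem_notMem_of_card_lt_card hcard
    rw [mem_insert, not_or] at ha
    refine ⟨a.val, fun _ => ?_, fun j => ?_⟩
    · intro hd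
      apply ha.1
      rw [← ZMod.natCast_zmod_val a]
      exact (ZMod.natCast_eq_zero_iff _ _).2 hd
    · intro hd
      apply ha.2
      rw [mem_image]
      refine ⟨j, mem_univ _, ?_⟩
      have h1 : ((a.val + h j : ℕ) : ZMod p) = 0 := (ZMod.natCast_eq_zero_iff _ _).2 hd
      rw [Nat.cast_add, ZMod.natCast_zmod_val] at h1
      rw [neg_eq_iff_add_eq_zero, add_comm]
      exact h1

/-! ### the densities -/

lemma cntk_le {m : ℕ} (S : Set (Fin m → ℕ)) (x : ℕ) : cntk S x ≤ x ^ m := by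
  classical
  unfold cntk
  refine (card_filter_le _ _).trans ?_
  rw [Fintype.card_piFinset]
  simp

lemma ratio_le {m : ℕ} (S : Set (Fin m → ℕ)) (x : ℕ) : (cntk S x : ℝ) / (x : ℝ) ^ m ≤ 1 := by
  apply div_le_one_of_le₀ _ (by positivity)
  exact_mod_cast cntk_le S x

lemma ratio_nonneg {m : ℕ} (S : Set (Fin m → ℕ)) (x : ℕ) : 0 ≤ (cntk S x : ℝ) / (x : ℝ) ^ m := by
  positivity

lemma bdd_above {m : ℕ} (S : Set (Fin m → ℕ)) :
    IsBoundedUnder (· ≤ ·) atTop (fun x : ℕ => (cntk S x : ℝ) / (x : ℝ) ^ m) :=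
  isBoundedUnder_of ⟨1, fun x => ratio_le S x⟩

lemma bdd_below {m : ℕ} (S : Set (Fin m → ℕ)) :
    IsBoundedUnder (· ≥ ·) atTop (fun x : ℕ => (cntk S x : ℝ) / (x : ℝ) ^ m) :=
  isBoundedUnder_of ⟨0, fun x => ratio_nonneg S x⟩

lemma lim_inv : Tendsto (fun x : ℕ => 1 / (x : ℝ)) atTop (𝓝 0) :=
  tendsto_const_div_atTop_nhds_zero_nat 1

lemma part_one (pr : Bool) (m w : ℕ) (B : Finset (ZMod (Wp w))) (hmw : m + 1 ≤ w) :
    ((misk pr m w B).card : ℝ) / (Wp w : ℝ) ^ m ≤ udk (losk pr m {n : ℕ | (n : ZMod (Wp w)) ∈ B}) := by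
  classical
  have hW := Wp_pos w
  have hWR : (0 : ℝ) < Wp w := by exact_mod_cast hW
  set S := losk pr m {n : ℕ | (n : ZMod (Wp w)) ∈ B} with hS
  set M : ℝ := ((misk pr m w B).card : ℝ) with hM
  -- the lower bound for the count
  have hlow : ∀ᶠ x : ℕ in atTop, M * (1 / (Wp w : ℝ) - (1 + w) * (1 / (x : ℝ))) ^ m ≤
      (cntk S x : ℝ) / (x : ℝ) ^ m := by
    have hlin : ∀ᶠ x : ℕ in atTop, (Wp w : ℝ) * (1 + w) ≤ (x : ℝ) :=
      tendsto_natCast_atTop_atTop.eventually_ge_atTop _
    filter_upwards [hlin, eventually_ge_atTop 1] with x hx hx1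
    have hx0 : (0 : ℝ) < x := by exact_mod_cast hx1
    have h1 : 0 ≤ (x : ℝ) / Wp w - 1 - w := by
      have : (1 + w : ℝ) ≤ (x : ℝ) / Wp w := by
        rw [le_div_iff₀ hWR]
        linarith
      linarith
    have h2 := VV_lower (m := m) (Wp w) hW w x (misk pr m w B) h1
    have h3 : (VV (Wp w) (w + 1) x (misk pr m w B)).card ≤ cntk S x := by
      unfold cntk
      apply card_le_card
      intro h hh
      unfold VV at hh
      rw [mem_filter, Fintype.mem_piFinset] at hh
      obtain ⟨h4, h5⟩ := hh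
      unfold misk at h5
      rw [mem_filter] at h5
      rw [mem_filter, Fintype.mem_piFinset]
      refine ⟨fun j => ?_, adm_of pr w hmw h h5.2.1, not_hit pr w B h h5.2.2 (fun j => ?_)⟩
      · have := mem_Icc.1 (h4 j)
        rw [mem_Icc]
        omega
      · have := mem_Icc.1 (h4 j)
        omega
    have h4 : ((VV (Wp w) (w + 1) x (misk pr m w B)).card : ℝ) ≤ cntk S x := by exact_mod_cast h3
    rw [le_div_iff₀ (by positivity)]
    refine le_trans (le_of_eq ?_) (h2.trans h4)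
    rw [mul_assoc, ← mul_pow]
    congr 2
    field_simp
    ring
  have hlim : Tendsto (fun x : ℕ => M * (1 / (Wp w : ℝ) - (1 + w) * (1 / (x : ℝ))) ^ m) atTop
      (𝓝 (M * (1 / (Wp w : ℝ) - (1 + w) * 0) ^ m)) :=
    ((tendsto_const_nhds.sub (lim_inv.const_mul _)).pow m).const_mul M
  have e : M * (1 / (Wp w : ℝ) - (1 + w) * 0) ^ m = M / (Wp w : ℝ) ^ m := by
    rw [mul_zero, sub_zero, div_pow, one_pow, mul_one_div]
  rw [e] at hlim
  unfold udk
  rw [← hlim.limsup_eq]
  exact limsup_le_limsup hlow hlim.isBoundedUnder_ge.isCoboundedUnder_le (bdd_above S)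

lemma part_two (pr : Bool) (m w : ℕ) (B : Finset (ZMod (Wp w))) :
    ldk (hitk pr m {n : ℕ | (n : ZMod (Wp w)) ∈ B}) ≤ ((sumk m w B).card : ℝ) / (Wp w : ℝ) ^ m := by
  classical
  have hW := Wp_pos w
  have hWR : (0 : ℝ) < Wp w := by exact_mod_cast hW
  set S := hitk pr m {n : ℕ | (n : ZMod (Wp w)) ∈ B} with hS
  set M : ℝ := ((sumk m w B).card : ℝ) with hM
  have hup : ∀ᶠ x : ℕ in atTop, (cntk S x : ℝ) / (x : ℝ) ^ m ≤
      M * (1 / (Wp w : ℝ) + 1 / (x : ℝ)) ^ m + (1 - (1 - w * (1 / (x : ℝ))) ^ m) := by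
    filter_upwards [eventually_ge_atTop (w + 1)] with x hx
    have hx1 : 1 ≤ x := by omega
    have hx0 : (0 : ℝ) < x := by exact_mod_cast hx1
    have h2 := VV_upper (m := m) (Wp w) hW x (sumk m w B)
    set P := Fintype.piFinset (fun _ : Fin m => Icc 1 x) with hP
    set Q := Fintype.piFinset (fun _ : Fin m => Icc (w + 1) x) with hQ
    have hQP : Q ⊆ P := by
      intro h hh
      rw [hQ, Fintype.mem_piFinset] at hh
      rw [hP, Fintype.mem_piFinset]
      intro j
      have := mem_Icc.1 (hh j)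
      rw [mem_Icc]
      omega
    have h3 : cntk S x ≤ (VV (Wp w) 1 x (sumk m w B)).card + (P \ Q).card := by
      unfold cntk
      refine (card_le_card ?_).trans (card_union_le _ _)
      intro h hh
      rw [mem_filter] at hh
      obtain ⟨h4, h5⟩ := hh
      rw [mem_union]
      by_cases h6 : h ∈ Q
      · left
        unfold VV
        rw [mem_filter]
        refine ⟨h4, hit_sumk pr w B h h5 (fun j => ?_)⟩
        rw [hQ, Fintype.mem_piFinset] at h6
        have := mem_Icc.1 (h6 j)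
        omega
      · right
        rw [Finset.mem_sdiff]
        exact ⟨h4, h6⟩
    have hPc : (P.card : ℝ) = (x : ℝ) ^ m := by
      rw [hP, Fintype.card_piFinset]
      simp
    have hQc : (Q.card : ℝ) = ((x : ℝ) - w) ^ m := by
      rw [hQ, Fintype.card_piFinset]
      simp only [Nat.card_Icc, prod_const, card_univ, Fintype.card_fin, Nat.cast_pow]
      congr 1
      have : x + 1 - (w + 1) = x - w := by omega
      rw [this, Nat.cast_sub (by omega)]
    have h4 : ((P \ Q).card : ℝ) = (x : ℝ) ^ m - ((x : ℝ) - w) ^ m := by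
      rw [card_sdiff_of_subset hQP, Nat.cast_sub (card_le_card hQP), hPc, hQc]
    have h5 : (cntk S x : ℝ) ≤ ((VV (Wp w) 1 x (sumk m w B)).card : ℝ) + ((P \ Q).card : ℝ) := by
      exact_mod_cast h3
    rw [h4] at h5
    rw [div_le_iff₀ (by positivity)]
    refine h5.trans ?_
    have e1 : M * (1 / (Wp w : ℝ) + 1 / (x : ℝ)) ^ m * (x : ℝ) ^ m = M * ((x : ℝ) / Wp w + 1) ^ m := by
      rw [mul_assoc, ← mul_pow]
      congr 2
      field_simp
    have e2 : (1 - w * (1 / (x : ℝ))) ^ m * (x : ℝ) ^ m = ((x : ℝ) - w) ^ m := by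
      rw [← mul_pow]
      congr 1
      field_simp
    rw [add_mul, e1, sub_mul, one_mul, e2]
    linarith
  have hlim : Tendsto (fun x : ℕ => M * (1 / (Wp w : ℝ) + 1 / (x : ℝ)) ^ m +
      (1 - (1 - w * (1 / (x : ℝ))) ^ m)) atTop
      (𝓝 (M * (1 / (Wp w : ℝ) + 0) ^ m + (1 - (1 - w * 0) ^ m))) :=
    (((tendsto_const_nhds.add lim_inv).pow m).const_mul M).add
      (tendsto_const_nhds.sub ((tendsto_const_nhds.sub (lim_inv.const_mul _)).pow m))
  have e : M * (1 / (Wp w : ℝ) + 0) ^ m + (1 - (1 - (w : ℝ) * 0) ^ m) = M / (Wp w : ℝ) ^ m := by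
    rw [mul_zero, sub_zero, one_pow, sub_self, add_zero, add_zero, div_pow, one_pow, mul_one_div]
  rw [e] at hlim
  unfold ldk
  rw [← hlim.liminf_eq]
  exact liminf_le_liminf hup (bdd_below S) hlim.isBoundedUnder_le.isCoboundedUnder_ge

end Pool.Agent.TH663.J3811

namespace Pool.Agent.TH881.RK

open Finset Filter Topology
open Pool.Agent.TH881
open Pool.Agent.TH881.RG
open Pool.Agent.TH881.RQ
open Pool.Agent.H373R2.T7

theorem stUnion_in (hPC : StPC) (pr : Bool) (m : ℕ) (hm : 1 ≤ m) : StUnion pr m := by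
  intro w B hB
  refine ⟨{n : ℕ | (n : ZMod (Wp w)) ∈ B}, ?_, fun hmw => ?_, ?_⟩
  · cases pr with
    | false => exact Pool.Agent.TH416.J3004.rel_false w B
    | true => exact Pool.Agent.TH416.J3004.rel_true hPC w B hB
  · exact Pool.Agent.TH663.J3811.part_one pr m w B hmw
  · exact Pool.Agent.TH663.J3811.part_two pr m w B

end Pool.Agent.TH881.RK
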